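import Pool.Agent.helper78.HFN.Spec

set_option autoImplicit false

open Polynomial Module

namespace Pool.Agent.HFN

noncomputable section

theorem RES_db (z : ℂ × ℂ) (B g : AA) : Db z (B * g) ↔ ev z B * ev z g = 0 ∧
    ev z (Dx B) * ev z g + ev z B * ev z (Dx g) = 0 ∧ ev z (Dy B) * ev z g + ev z B * ev z (Dy g) = 0 := by
  unfold Db
  rw [Dx_mul, Dy_mul, ev_mul, ev_add, ev_add, ev_mul, ev_mul, ev_mul, ev_mul]

theorem RES : RES_stmt := by
  intro k z B g hk
  unfold Kc
  rw [RES_db, ev_mul]
  by_cases hd : Db z B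
  · have ho : od B z = 2 := by simp [od, hd]
    rw [ho]
    obtain ⟨h1, h2, h3⟩ := hd
    rw [h1, h2, h3]
    constructor
    · intro _
      exact ⟨fun h => by omega, fun h => by omega⟩
    · intro _
      simp
  · by_cases he : ev z B = 0
    · have ho : od B z = 1 := by simp [od, hd, he]
      rw [ho, he]
      have hne : ev z (Dx B) ≠ 0 ∨ ev z (Dy B) ≠ 0 := by
        by_contra hcon
        push Not at hcon
        exact hd ⟨he, hcon.1, hcon.2⟩
      constructor
      · rintro ⟨-, h2⟩
        refine ⟨fun h => ?_, fun h => by omega⟩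
        obtain ⟨-, h3, h4⟩ := h2 (by omega)
        rw [zero_mul, add_zero] at h3 h4
        rcases hne with h5 | h5
        · exact (mul_eq_zero.mp h3).resolve_left h5
        · exact (mul_eq_zero.mp h4).resolve_left h5
      · rintro ⟨h1, -⟩
        refine ⟨fun _ => zero_mul _, fun h => ?_⟩
        have h5 := h1 (by omega)
        rw [h5]
        simp
    · have ho : od B z = 0 := by simp [od, hd, he]
      rw [ho, Nat.sub_zero]
      unfold Db
      constructor
      · rintro ⟨h1, h2⟩
        refine ⟨fun h => (mul_eq_zero.mp (h1 h)).resolve_left he, fun h => ?_⟩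
        obtain ⟨h3, h4, h5⟩ := h2 h
        have h6 := (mul_eq_zero.mp h3).resolve_left he
        rw [h6, mul_zero, zero_add] at h4 h5
        exact ⟨h6, (mul_eq_zero.mp h4).resolve_left he, (mul_eq_zero.mp h5).resolve_left he⟩
      · rintro ⟨h1, h2⟩
        refine ⟨fun h => by rw [h1 h, mul_zero], fun h => ?_⟩
        obtain ⟨h3, h4, h5⟩ := h2 h
        rw [h3, h4, h5]
        simp

end

end Pool.Agent.HFN
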